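import Pool.Agent.W128.VA.Stm2

/-!
# VA-EIG: `h 0` is diagonalisable on the vacuum space
-/

set_option autoImplicit false

namespace Pool.Agent.W496.VA.EIG

open Pool.Agent.W128.VA Finset

universe u

variable {M : Type u} [AddCommGroup M] [Module ℂ M] {gr : ℤ → Submodule ℂ M}
  {h e f : ℤ → Module.End ℂ M}

/-- the sup over `j ≥ b` -/
def SS (gr : ℤ → Submodule ℂ M) (h : ℤ → Module.End ℂ M) (d b : ℤ) : Submodule ℂ M :=
  ⨆ j : {j : ℤ // b ≤ j}, Om h j ⊓ gr d

theorem SS_mono (d : ℤ) {b b' : ℤ} (hb : b ≤ b') : SS gr h d b' ≤ SS gr h d b := by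
  unfold SS
  refine iSup_le fun j => ?_
  exact le_iSup (fun j : {j : ℤ // b ≤ j} => Om h j ⊓ gr d) ⟨j.1, hb.trans j.2⟩

theorem solve (d b a : ℤ) (hab : a < b) (x : M) (hx : x ∈ SS gr h d b) :
    ∃ y ∈ SS gr h d b, h 0 y - (a : ℂ) • y = x ∧ (∀ n : ℤ, 0 < n → h n y = 0) ∧ y ∈ gr d := by
  unfold SS at hx
  refine Submodule.iSup_induction (fun j : {j : ℤ // b ≤ j} => Om h j ⊓ gr d)
    (motive := fun x => ∃ y ∈ SS gr h d b, h 0 y - (a : ℂ) • y = x ∧
      (∀ n : ℤ, 0 < n → h n y = 0) ∧ y ∈ gr d) hx ?_ ?_ ?_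
  · rintro ⟨j, hj⟩ x ⟨⟨hx1, hx2⟩, hx3⟩
    have hne : ((j : ℂ) - (a : ℂ)) ≠ 0 := by
      rw [sub_ne_zero]
      intro hja
      have : j = a := by exact_mod_cast hja
      omega
    refine ⟨((j : ℂ) - (a : ℂ))⁻¹ • x, ?_, ?_, ?_, ?_⟩
    · refine Submodule.smul_mem _ _ ?_
      exact Submodule.mem_iSup_of_mem (p := fun j : {j : ℤ // b ≤ j} => Om h j ⊓ gr d)
        ⟨j, hj⟩ ⟨⟨hx1, hx2⟩, hx3⟩
    · have hx2' : h 0 x = (j : ℂ) • x := hx2
      rw [map_smul, hx2', smul_smul, smul_smul, ← sub_smul]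
      have : ((j : ℂ) - a)⁻¹ * j - a * ((j : ℂ) - a)⁻¹ = 1 := by
        field_simp
      rw [this, one_smul]
    · intro n hn
      rw [map_smul, hx1 n hn, smul_zero]
    · exact Submodule.smul_mem _ _ hx3
  · exact ⟨0, Submodule.zero_mem _, by simp, by simp, Submodule.zero_mem _⟩
  · rintro x1 x2 ⟨y1, h11, h12, h13, h14⟩ ⟨y2, h21, h22, h23, h24⟩
    refine ⟨y1 + y2, Submodule.add_mem _ h11 h21, ?_, ?_, Submodule.add_mem _ h14 h24⟩
    · rw [← h12, ← h22, map_add, smul_add]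
      abel
    · intro n hn
      rw [map_add, h13 n hn, h23 n hn, add_zero]

theorem claim (H : SlRel gr h e f) (d : ℤ) : ∀ (K : ℕ) (N N' : ℤ) (w : M), w ∈ gr d →
    (∀ n : ℤ, 0 < n → h n w = 0) → (∀ n, N < n → e n w = 0) → (∀ n, N' < n → f n w = 0) →
    N + N' + 3 ≤ K → w ∈ SS gr h d (-N - 1) := by
  intro K
  induction K with
  | zero =>
    intro N N' w hw hh he hf hK
    simp only [Nat.cast_zero] at hK
    have key : ∀ m : ℤ, N < m → N' < -m → h 0 w + (m : ℂ) • w = 0 := by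
      intro m h1 h2
      have h3 := H.ef m (-m) w
      rw [hf _ h2, he _ h1, map_zero, map_zero, sub_zero, add_neg_cancel, if_pos rfl] at h3
      exact h3.symm
    have k1 := key (N + 1) (by omega) (by omega)
    have k2 := key (N + 2) (by omega) (by omega)
    have h0 : w = 0 := by
      have h3 : (((N + 2 : ℤ) : ℂ) - ((N + 1 : ℤ) : ℂ)) • w = 0 := by
        rw [sub_smul]
        calc ((N + 2 : ℤ) : ℂ) • w - ((N + 1 : ℤ) : ℂ) • w
            = (h 0 w + ((N + 2 : ℤ) : ℂ) • w) - (h 0 w + ((N + 1 : ℤ) : ℂ) • w) := by abel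
          _ = 0 := by rw [k1, k2, sub_zero]
      have h4 : (((N + 2 : ℤ) : ℂ) - ((N + 1 : ℤ) : ℂ)) = 1 := by push_cast; ring
      rw [h4, one_smul] at h3
      exact h3
    rw [h0]
    exact Submodule.zero_mem _
  | succ K ih =>
    intro N N' w hw hh he hf hK
    push_cast at hK
    have hmem : h 0 w ∈ gr d := by
      have := H.dh 0 d w hw
      rwa [sub_zero] at this
    set a : ℤ := -N - 1 with ha
    set w' : M := h 0 w - (a : ℂ) • w with hw'
    have e0 : e N (h 0 w) = (a : ℂ) • e N w := by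
      have h1 := H.Te (N + 1) w 1 (fun j hj => he _ (by omega))
        (fun j hj => hh _ (by omega))
      rw [Finset.sum_range_one] at h1
      simp only [Nat.cast_zero, add_zero, sub_zero] at h1
      rw [he (N + 1) (by omega), map_zero, zero_add, add_sub_cancel_right] at h1
      rw [← h1]
      congr 1
      rw [ha]
      push_cast
      ring
    have hwin : w' ∈ SS gr h d (-(N - 1) - 1) := by
      refine ih (N - 1) N' w' ?_ ?_ ?_ ?_ (by omega)
      · exact Submodule.sub_mem _ hmem (Submodule.smul_mem _ _ hw)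
      · intro n hn
        have h1 := H.hh n 0 w
        rw [if_neg (by omega), zero_smul, hh n hn, map_zero, sub_zero] at h1
        rw [hw', map_sub, map_smul, h1, hh n hn, smul_zero, sub_zero]
      · intro n hn
        rcases eq_or_lt_of_le (show N ≤ n by omega) with h2 | h2
        · rw [← h2, hw', map_sub, map_smul, e0, sub_self]
        · have h1 := H.he 0 n w
          rw [zero_add, he n h2, map_zero, smul_zero, zero_sub, neg_eq_zero] at h1
          rw [hw', map_sub, map_smul, h1, he n h2, smul_zero, sub_zero]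
      · intro n hn
        have h1 := H.hf 0 n w
        rw [zero_add, hf n hn, map_zero, smul_zero, zero_sub, neg_eq_zero] at h1
        rw [hw', map_sub, map_smul, h1, hf n hn, smul_zero, sub_zero]
    obtain ⟨y, hy1, hy2, hy3, hy4⟩ := solve d (-(N - 1) - 1) a (by omega) w' hwin
    have hmem2 : w - y ∈ SS gr h d a := by
      refine Submodule.mem_iSup_of_mem (p := fun j : {j : ℤ // a ≤ j} => Om h j ⊓ gr d)
        ⟨a, le_rfl⟩ ⟨⟨?_, ?_⟩, Submodule.sub_mem _ hw hy4⟩
      · intro n hn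
        rw [map_sub, hh n hn, hy3 n hn, sub_zero]
      · have h1 : h 0 y - (a : ℂ) • y = h 0 w - (a : ℂ) • w := hy2
        show h 0 (w - y) = (a : ℂ) • (w - y)
        rw [map_sub, smul_sub, sub_eq_sub_iff_sub_eq_sub]
        exact h1.symm
    have hfin := Submodule.add_mem _ hmem2 (SS_mono (gr := gr) (h := h) d
      (show a ≤ -(N - 1) - 1 by omega) hy1)
    rwa [sub_add_cancel] at hfin

theorem main : S_EIG.{u} := by
  intro M _ _ gr h e f H d w hw hh
  obtain ⟨N, hN⟩ := H.tre w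
  obtain ⟨N', hN'⟩ := H.trf w
  have h1 := claim H d (N + N' + 3).toNat N N' w hw hh (fun n hn => hN n hn.le)
    (fun n hn => hN' n hn.le) (by omega)
  unfold SS at h1
  refine (iSup_le fun j : {j : ℤ // -N - 1 ≤ j} => ?_ :
    (⨆ j : {j : ℤ // -N - 1 ≤ j}, Om h j ⊓ gr d) ≤ ⨆ j : ℤ, Om h j ⊓ gr d) h1
  exact le_iSup (fun j : ℤ => Om h j ⊓ gr d) j.1

end Pool.Agent.W496.VA.EIG
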